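import Pool.Agent.V11257.Zr6

/-!
# A Baire set of a realcompact space that is not realcompact

In a symmetric model of ZF there is a sequence of sets `A n`, each of them a copy of the set of the
integers up to translations, such that every set is invariant under the translations of almost all
of them. Countable multiple choice fails in the model. The space is the ordered space
`p 0 < A 0 < p 1 < A 1 < ... < a`. It is realcompact (a closed subspace of a Cantor cube). Its
subspace without the last point `a` is a countable union of complements of zero-sets, and it is not
realcompact: every continuous real function on it has the same value at almost all points `p n`.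
-/

namespace Pool.Agent.Results.MP_f2f7cf_lc.BaireSetNotRealcompact

open FirstOrder FirstOrder.Language
open Pool.Agent.Helper672.Plain (LSet Mem)
open Pool.Agent.H635Amen (ZF)
open Pool.Agent.H310Top (IsTopology)
open Pool.Agent.V11257Z

universe u

/-- In the model `N` there are a realcompact space `x` with the topology `t` and a Baire set `b` of
it that is not realcompact as a subspace. -/
def HasBaireSet (N : Type u) [LSet.Structure N] : Prop :=
  ∃ x t b : N, IsTopology t x ∧ IsRealcompact t x ∧ (∀ z, Mem z b → Mem z x) ∧
    IsBaireSet t x b ∧ ¬ IsRealcompactSub t b

/-- There is a model of ZF and the negation of CMC with such a space; and for every model of ZF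
there is one (in the same universe). -/
theorem result : (∃ (N : Type 1) (_ : LSet.Structure N), ZF N ∧ ¬ CMC N ∧ HasBaireSet N) ∧
    ∀ (M : Type u) [LSet.Structure M], ZF M →
      ∃ (N : Type u) (_ : LSet.Structure N), ZF N ∧ ¬ CMC N ∧ HasBaireSet N := by
  refine ⟨exists_of_forall fun M _ hM => ?_, fun M _ hM => ?_⟩
  · obtain ⟨N, i, hN, hT⟩ := exists_zt M hM
    obtain ⟨h1, h2⟩ := space_baire_of hT
    exact ⟨N, i, hN, h1, h2⟩
  · obtain ⟨N, i, hN, hT⟩ := exists_zt M hM
    obtain ⟨h1, h2⟩ := space_baire_of hT
    exact ⟨N, i, hN, h1, h2⟩

end Pool.Agent.Results.MP_f2f7cf_lc.BaireSetNotRealcompact
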